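import Pool.Agent.Helper47.FLG.Alg2
import Pool.Agent.Helper31.RFn.RP4

/-!
# Project FLG, packet CPO: compactness, odd dimension
-/

namespace Pool.Agent.Helper1.FLG

open Finset Pool.Agent.Helper47.RFn Pool.Agent.Helper47.FLG

variable {n : ℕ}

theorem cont_fl (z x y : Fin n → ℝ) : Continuous (fun R : T4 n => fl R z x y) := by
  unfold fl K2
  fun_prop

theorem closed_curv : IsClosed {R : T4 n | IsCurv R} := by
  have e : {R : T4 n | IsCurv R} =
      {R | ∀ a b c d, R a b c d = - R b a c d} ∩ ({R | ∀ a b c d, R a b c d = - R a b d c} ∩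
        ({R | ∀ a b c d, R a b c d = R c d a b} ∩
          {R | ∀ a b c d, R a b c d + R b c a d + R c a b d = 0})) := by
    ext R
    constructor
    · intro h
      exact ⟨h.a12, h.a34, h.pair, h.bian⟩
    · rintro ⟨h1, h2, h3, h4⟩
      exact ⟨h1, h2, h3, h4⟩
  rw [e]
  refine IsClosed.inter ?_ (IsClosed.inter ?_ (IsClosed.inter ?_ ?_))
  · simp only [Set.ofPred_forall]
    refine isClosed_iInter fun a => isClosed_iInter fun b => isClosed_iInter fun c =>
      isClosed_iInter fun d => isClosed_eq (by fun_prop) (by fun_prop)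
  · simp only [Set.ofPred_forall]
    refine isClosed_iInter fun a => isClosed_iInter fun b => isClosed_iInter fun c =>
      isClosed_iInter fun d => isClosed_eq (by fun_prop) (by fun_prop)
  · simp only [Set.ofPred_forall]
    refine isClosed_iInter fun a => isClosed_iInter fun b => isClosed_iInter fun c =>
      isClosed_iInter fun d => isClosed_eq (by fun_prop) (by fun_prop)
  · simp only [Set.ofPred_forall]
    refine isClosed_iInter fun a => isClosed_iInter fun b => isClosed_iInter fun c =>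
      isClosed_iInter fun d => isClosed_eq (by fun_prop) (by fun_prop)

theorem closed_FG : IsClosed {R : T4 n | FG R} := by
  have e : {R : T4 n | FG R} = {R | IsCurv R} ∩ {R | ∀ z x y, 0 ≤ fl R z x y} := by
    ext R
    exact Iff.rfl
  rw [e]
  refine IsClosed.inter closed_curv ?_
  simp only [Set.ofPred_forall]
  exact isClosed_iInter fun z => isClosed_iInter fun x => isClosed_iInter fun y =>
    isClosed_le continuous_const (cont_fl z x y)

theorem cont_lam : Continuous (fun R : T4 n => lam R) := by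
  unfold lam Ric
  fun_prop

theorem cont_qf : Continuous (fun p : T4 n × (Fin n → ℂ) × (Fin n → ℂ) => qf p.1 p.2.1 p.2.2) := by
  unfold qf
  refine Complex.continuous_re.comp ?_
  refine continuous_finsetSum _ fun a _ => continuous_finsetSum _ fun b _ =>
    continuous_finsetSum _ fun c _ => continuous_finsetSum _ fun d _ => ?_
  have h1 : Continuous (fun p : T4 n × (Fin n → ℂ) × (Fin n → ℂ) => ((p.1 a b c d : ℝ) : ℂ)) :=
    Complex.continuous_ofReal.comp (by fun_prop)
  have h2 : Continuous (fun p : T4 n × (Fin n → ℂ) × (Fin n → ℂ) => p.2.1 a) := by fun_prop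
  have h3 : Continuous (fun p : T4 n × (Fin n → ℂ) × (Fin n → ℂ) => p.2.2 b) := by fun_prop
  have h4 : Continuous (fun p : T4 n × (Fin n → ℂ) × (Fin n → ℂ) => star (p.2.1 c)) :=
    continuous_star.comp (by fun_prop)
  have h5 : Continuous (fun p : T4 n × (Fin n → ℂ) × (Fin n → ℂ) => star (p.2.2 d)) :=
    continuous_star.comp (by fun_prop)
  exact (((h1.mul h2).mul h3).mul h4).mul h5

theorem cont_qf2 (R : T4 n) :
    Continuous (fun p : T4 n × (Fin n → ℂ) × (Fin n → ℂ) => qf R p.2.1 p.2.2) := by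
  have h : Continuous (fun p : T4 n × (Fin n → ℂ) × (Fin n → ℂ) =>
      ((R, p.2.1, p.2.2) : T4 n × (Fin n → ℂ) × (Fin n → ℂ))) := by fun_prop
  have h2 := cont_qf.comp h
  simp only [Function.comp_def] at h2
  exact h2

theorem cont_Q : Continuous (fun R : T4 n => Q R) := by
  unfold Q BB
  fun_prop

theorem Q_smul (c : ℝ) (R : T4 n) : Q (c • R) = (c ^ 2) • Q R := by
  funext a b e d
  simp only [Q, BB, Pi.smul_apply, smul_eq_mul, mul_sub, mul_add, Finset.mul_sum]
  congr 1
  · congr 1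
    · congr 1
      · exact sum_congr rfl fun i _ => sum_congr rfl fun j _ => by ring
      · exact sum_congr rfl fun i _ => sum_congr rfl fun j _ => by ring
    · exact sum_congr rfl fun i _ => sum_congr rfl fun j _ => by ring
  · exact sum_congr rfl fun i _ => sum_congr rfl fun j _ => by ring

theorem cont_qfQ : Continuous (fun p : T4 n × (Fin n → ℂ) × (Fin n → ℂ) =>
    qf (Q p.1) p.2.1 p.2.2) := by
  have h : Continuous (fun p : T4 n × (Fin n → ℂ) × (Fin n → ℂ) =>
      ((Q p.1, p.2.1, p.2.2) : T4 n × (Fin n → ℂ) × (Fin n → ℂ))) :=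
    (cont_Q.comp continuous_fst).prodMk continuous_snd
  have h2 := cont_qf.comp h
  simp only [Function.comp_def] at h2
  exact h2

end Pool.Agent.Helper1.FLG

namespace Pool.Agent.Helper47.FLG

open Finset Pool.Agent.Helper47.RFn Pool.Agent.Helper1.FLG

theorem g_CPO (hSBO : G_SBO) (hFG2 : G_FG2) (hNW : G_NW) (hFG1 : G_FG1) (hCL : Goal_CL)
    (hLN : Goal_LN) : G_CPO := by
  intro n hn hodd
  -- the compact set
  let S : Set (T4 n × (Fin n → ℂ) × (Fin n → ℂ)) :=
    {p | FG p.1 ∧ lam p.1 = 1 ∧ (∑ i, Complex.normSq (p.2.1 i)) = 1 ∧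
      (∑ i, Complex.normSq (p.2.2 i)) = 1 ∧ qf (Id4 n) p.2.1 p.2.2 = 1}
  have hScl : IsClosed S := by
    have e : S = {p | FG p.1} ∩ ({p | lam p.1 = 1} ∩ ({p | (∑ i, Complex.normSq (p.2.1 i)) = 1} ∩
        ({p | (∑ i, Complex.normSq (p.2.2 i)) = 1} ∩ {p | qf (Id4 n) p.2.1 p.2.2 = 1}))) := by
      ext p
      exact Iff.rfl
    rw [e]
    refine IsClosed.inter (closed_FG.preimage continuous_fst) (IsClosed.inter ?_ (IsClosed.inter ?_
      (IsClosed.inter ?_ ?_)))
    · exact isClosed_eq (cont_lam.comp continuous_fst) continuous_const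
    · refine isClosed_eq (continuous_finsetSum _ fun i _ =>
        Complex.continuous_normSq.comp (by fun_prop)) continuous_const
    · refine isClosed_eq (continuous_finsetSum _ fun i _ =>
        Complex.continuous_normSq.comp (by fun_prop)) continuous_const
    · exact isClosed_eq (cont_qf2 (Id4 n)) continuous_const
  have hSb : S ⊆ Metric.closedBall 0 (n : ℝ) := by
    rintro ⟨R, z, w⟩ ⟨h1, h2, h3, h4, -⟩
    have hn1 : (1 : ℝ) ≤ n := by
      have : 1 ≤ n := by omega
      exact_mod_cast this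
    have hn0 : (0 : ℝ) ≤ n := by linarith
    have hR : ∀ a b c d, |R a b c d| ≤ (n : ℝ) := by
      intro a b c d
      have := (hFG2 n hn R h1).2.1 a b c d
      rw [show lam R = 1 from h2, mul_one] at this
      exact this
    have hz : ∀ z : Fin n → ℂ, (∑ i, Complex.normSq (z i)) = 1 → ‖z‖ ≤ (n : ℝ) := by
      intro z hz
      rw [pi_norm_le_iff_of_nonneg hn0]
      intro i
      have h5 : Complex.normSq (z i) ≤ 1 := by
        rw [← hz]
        exact Finset.single_le_sum (f := fun i => Complex.normSq (z i))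
          (fun j _ => Complex.normSq_nonneg _) (Finset.mem_univ i)
      have h6 : ‖z i‖ ^ 2 ≤ 1 := by
        rw [← Complex.normSq_eq_norm_sq]
        exact h5
      have h7 : ‖z i‖ ≤ 1 := by
        nlinarith [norm_nonneg (z i)]
      linarith
    rw [Metric.mem_closedBall, dist_zero_right, Prod.norm_def, max_le_iff, Prod.norm_def, max_le_iff]
    refine ⟨?_, hz z h3, hz w h4⟩
    rw [pi_norm_le_iff_of_nonneg hn0]
    intro a
    rw [pi_norm_le_iff_of_nonneg hn0]
    intro b
    rw [pi_norm_le_iff_of_nonneg hn0]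
    intro c
    rw [pi_norm_le_iff_of_nonneg hn0]
    intro d
    rw [Real.norm_eq_abs]
    exact hR a b c d
  have hScomp : IsCompact S :=
    Metric.isCompact_of_isClosed_isBounded hScl (Metric.isBounded_closedBall.subset hSb)
  have hK : ∀ R : T4 n, FG R → 0 < lam R → ∀ u v, wd u v ≠ 0 → 0 < K2 R u v := by
    intro R hR hl u v huv
    have h1 := (hFG2 n hn R hR).2.2.1 u v
    have hn1 : (0 : ℝ) < (n : ℝ) - 1 := by
      have : (4 : ℝ) ≤ n := by exact_mod_cast hn
      linarith
    have h2 : 0 ≤ wd u v := by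
      have hc : IsCurv (Id4 n) := (hCL n).2.2.1
      unfold wd nrm dot
      have := Finset.sum_mul_sq_le_sq_mul_sq univ u v
      linarith
    have h3 : 0 < wd u v := lt_of_le_of_ne h2 (Ne.symm huv)
    have h4 : 0 < lam R / (16 * ((n : ℝ) - 1)) * wd u v := by positivity
    linarith
  -- positivity
  have hpos : ∀ p ∈ S, 0 < max (qf p.1 p.2.1 p.2.2) (qf (Q p.1) p.2.1 p.2.2) := by
    rintro ⟨R, z, w⟩ ⟨h1, h2, -, -, h5⟩
    simp only at h1 h2 h5 ⊢
    have h6 : 0 ≤ qf R z w := ((hNW n hn).2.1 R h1).2 z w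
    rcases eq_or_lt_of_le h6 with h7 | h7
    · exact lt_max_of_lt_right (hSBO n hn hodd R h1 (by rw [h2]; norm_num) z w h7.symm
        (by rw [h5]; norm_num))
    · exact lt_max_of_lt_left h7
  have hcont : Continuous (fun p : T4 n × (Fin n → ℂ) × (Fin n → ℂ) =>
      max (qf p.1 p.2.1 p.2.2) (qf (Q p.1) p.2.1 p.2.2)) := by
    exact cont_qf.max cont_qfQ
  obtain ⟨c0, hc0, hc⟩ : ∃ c0 > 0, ∀ p ∈ S, c0 ≤ max (qf p.1 p.2.1 p.2.2) (qf (Q p.1) p.2.1 p.2.2) := by
    rcases S.eq_empty_or_nonempty with hS | hS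
    · exact ⟨1, one_pos, fun p hp => by rw [hS] at hp; exact absurd hp (Set.notMem_empty p)⟩
    · obtain ⟨p0, hp0, hmin⟩ := hScomp.exists_isMinOn hS hcont.continuousOn
      exact ⟨_, hpos p0 hp0, fun p hp => hmin hp⟩
  refine ⟨c0 / 2, by positivity, ?_⟩
  intro R hR hl z w hq
  have hRc : IsCurv R := hR.1
  have hQc : IsCurv (Q R) := (hCL n).1 R hRc
  by_cases hI : qf (Id4 n) z w = 0
  · rw [hI, mul_zero]
    exact le_of_eq (((Pool.Agent.Helper47.RFn.goal_RP4 n).2.1 z w).1 hI (Q R) hQc).symm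
  obtain ⟨z', w', hz', hw', -, hI', hq'⟩ := ((Pool.Agent.Helper47.RFn.goal_RP4 n).2.1 z w).2 hI
  have hI0 : 0 ≤ qf (Id4 n) z w := by
    have h := (hNW n hn).2.1 (Id4 n) ?_
    · exact h.2 z w
    · refine ⟨(hCL n).2.2.1, fun a b c => ?_⟩
      rw [(hFG1 n).2.2.2.2.2.1]
      have hw : ∀ u v : Fin n → ℝ, 0 ≤ wd u v := by
        intro u v
        unfold wd nrm dot
        have := Finset.sum_mul_sq_le_sq_mul_sq univ u v
        linarith
      have h1 := hw b a
      have h2 := hw c a
      positivity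
  have hIp : 0 < qf (Id4 n) z w := lt_of_le_of_ne hI0 (Ne.symm hI)
  -- scale
  set l := lam R with hldef
  have hl0 : l ≠ 0 := ne_of_gt hl
  have hmem : ((l⁻¹ • R, z', w') : T4 n × (Fin n → ℂ) × (Fin n → ℂ)) ∈ S := by
    refine ⟨(hFG1 n).2.1 _ R (by positivity) hR, ?_, hz', hw', hI'⟩
    show lam (l⁻¹ • R) = 1
    rw [(hLN n).2.2.2.2.2.1, ← hldef]
    field_simp
  have h1 := hc _ hmem
  simp only [Q_smul, (hLN n).2.1] at h1
  -- qf R z' w' small
  have h2 : qf R z' w' ≤ c0 / 2 * l := by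
    rw [hq' R hRc] at hq
    have : qf (Id4 n) z w * qf R z' w' ≤ qf (Id4 n) z w * (c0 / 2 * l) := by linarith
    exact le_of_mul_le_mul_left this hIp
  have h3 : l⁻¹ * qf R z' w' ≤ c0 / 2 := by
    rw [inv_mul_le_iff₀ hl]
    linarith
  have h4 : c0 ≤ (l⁻¹) ^ 2 * qf (Q R) z' w' := by
    rcases le_max_iff.mp h1 with h | h
    · linarith
    · exact h
  have h5 : c0 * l ^ 2 ≤ qf (Q R) z' w' := by
    have h6 : (l⁻¹) ^ 2 * qf (Q R) z' w' = qf (Q R) z' w' / l ^ 2 := by
      field_simp
    rw [h6, le_div_iff₀ (by positivity)] at h4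
    exact h4
  rw [hq' (Q R) hQc]
  have h7 : c0 / 2 * l ^ 2 ≤ qf (Q R) z' w' := by
    have : 0 < l ^ 2 := by positivity
    nlinarith
  nlinarith [mul_le_mul_of_nonneg_left h7 hI0]

end Pool.Agent.Helper47.FLG
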